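import Pool.Agent.Q145.ART.Stm
import Pool.Agent.Y855.A8

/-!
Project ART, job SV: many primes `p` such that `p - 1` has no small odd prime factor.
-/

set_option autoImplicit false

namespace Pool.Agent.Q238.ART

open Finset Filter Topology
open Pool.Agent.Q145.ART
open Pool.Agent.Y855 (TT OP VP Es asymp bvEs VP_lower piN_ge mem_OP Es_nonneg)
open Pool.Agent.H442R2.KF (piN)

theorem TT_le (x : ℕ) :
    ((TT x ⌊(Real.log x) ^ 2⌋₊).card : ℝ) ≤
      num (PP x) (fun p : ℕ => Real.sqrt x < (p : ℝ) ∧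
        ∀ q : ℕ, q.Prime → 3 ≤ q → (q : ℝ) ≤ (Real.log x) ^ 2 → ¬ q ∣ p - 1) + Real.sqrt x := by
  classical
  unfold num
  set T := (PP x).filter (fun p : ℕ => Real.sqrt x < (p : ℝ) ∧
        ∀ q : ℕ, q.Prime → 3 ≤ q → (q : ℝ) ≤ (Real.log x) ^ 2 → ¬ q ∣ p - 1) with hT
  have h1 : TT x ⌊(Real.log x) ^ 2⌋₊ ⊆ T ∪ Icc 1 ⌊Real.sqrt x⌋₊ := by
    intro p hp
    unfold TT at hp
    rw [mem_filter, mem_Icc] at hp
    obtain ⟨⟨hp1, hpx⟩, hpp, hpq⟩ := hp
    rw [mem_union]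
    by_cases h : Real.sqrt x < (p : ℝ)
    · left
      rw [hT, mem_filter]
      refine ⟨?_, h, ?_⟩
      · unfold PP
        rw [mem_filter, mem_range]
        exact ⟨by omega, hpp⟩
      · intro q hq hq3 hqL
        apply hpq q
        rw [mem_OP]
        exact ⟨hq, hq3, Nat.le_floor hqL⟩
    · right
      rw [mem_Icc]
      exact ⟨hp1, Nat.le_floor (not_lt.mp h)⟩
  have h2 := (card_le_card h1).trans (card_union_le _ _)
  rw [Nat.card_Icc, Nat.add_sub_cancel] at h2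
  have h3 : ((⌊Real.sqrt x⌋₊ : ℕ) : ℝ) ≤ Real.sqrt x := Nat.floor_le (Real.sqrt_nonneg _)
  calc ((TT x ⌊(Real.log x) ^ 2⌋₊).card : ℝ) ≤ ((T.card + ⌊Real.sqrt x⌋₊ : ℕ) : ℝ) := by
        exact_mod_cast h2
    _ = (T.card : ℝ) + ((⌊Real.sqrt x⌋₊ : ℕ) : ℝ) := by push_cast; ring
    _ ≤ _ := by
        apply add_le_add _ h3
        apply le_of_eq
        congr
        ext p
        simp only [hT, mem_filter]

/-- `L ^ k ≤ exp (a L)` for large `L`. -/
theorem ev_pow (a : ℝ) (ha : 0 < a) (k : ℕ) : ∀ᶠ L : ℝ in atTop, L ^ k ≤ Real.exp (a * L) := by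
  have h := (Real.tendsto_pow_mul_exp_neg_atTop_nhds_zero k)
  have h2 : Tendsto (fun L : ℝ => a * L) atTop atTop := tendsto_id.const_mul_atTop ha
  have h3 := h.comp h2
  have h4 : ∀ᶠ L : ℝ in atTop, (a * L) ^ k * Real.exp (-(a * L)) < a ^ k :=
    h3.eventually (gt_mem_nhds (by positivity))
  filter_upwards [h4, eventually_ge_atTop 0] with L hL hL0
  rw [mul_pow, Real.exp_neg, ← div_eq_mul_inv, div_lt_iff₀ (Real.exp_pos _)] at hL
  exact (lt_of_mul_lt_mul_left hL (by positivity)).le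

theorem t_SV : S_SV := by
  obtain ⟨B, hB, hasy⟩ := asymp (1 / 2) (by norm_num)
  obtain ⟨C, hC, hbv⟩ := bvEs 5
  obtain ⟨c, hc, hVP⟩ := VP_lower
  obtain ⟨X0, hX0, hpi⟩ := piN_ge
  obtain ⟨L1, hL1⟩ := eventually_atTop.1 (ev_pow (2 / 5) (by norm_num) (2 * B))
  obtain ⟨L2, hL2⟩ := eventually_atTop.1 (ev_pow (1 / 2) (by norm_num) 3)
  refine ⟨max (max X0 (Real.exp (max (max L1 L2) 3))) (Real.exp (64 * (C + 1) / c)), fun x hx => ?_⟩
  have hxX : (X0 : ℝ) ≤ x := ((le_max_left _ _).trans (le_max_left _ _)).trans hx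
  have hxX' : X0 ≤ x := by exact_mod_cast hxX
  have hx3 : 3 ≤ x := hX0.trans hxX'
  have hxe : Real.exp (max (max L1 L2) 3) ≤ x := ((le_max_right _ _).trans (le_max_left _ _)).trans hx
  have hxe2 : Real.exp (64 * (C + 1) / c) ≤ x := (le_max_right _ _).trans hx
  have hx0 : (0 : ℝ) < x := by positivity
  set L := Real.log x with hL
  have hLm : max (max L1 L2) 3 ≤ L := (Real.le_log_iff_exp_le hx0).2 hxe
  have hLc : 64 * (C + 1) / c ≤ L := (Real.le_log_iff_exp_le hx0).2 hxe2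
  have hL3 : 3 ≤ L := (le_max_right _ _).trans hLm
  have hLL1 : L1 ≤ L := ((le_max_left _ _).trans (le_max_left _ _)).trans hLm
  have hLL2 : L2 ≤ L := ((le_max_right _ _).trans (le_max_left _ _)).trans hLm
  have hxexp : (x : ℝ) = Real.exp L := (Real.exp_log hx0).symm
  set z := ⌊L ^ 2⌋₊ with hz
  have hz1 : (z : ℝ) ≤ L ^ 2 := Nat.floor_le (by positivity)
  have hz2 : 2 ≤ z := by
    apply Nat.le_floor
    push_cast
    nlinarith
  obtain ⟨hT, -⟩ := hasy z hz2 x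
  -- the error term
  have hD : ∑ d ∈ Icc 1 (z ^ B), Es x d ≤ C * (x / L ^ 5) := by
    refine le_trans (sum_le_sum_of_subset_of_nonneg ?_ (fun _ _ _ => Es_nonneg _ _)) (hbv x hx3)
    apply Icc_subset_Icc_right
    apply Nat.le_floor
    push_cast
    calc (z : ℝ) ^ B ≤ (L ^ 2) ^ B := pow_le_pow_left₀ (by positivity) hz1 B
      _ = L ^ (2 * B) := by rw [pow_mul]
      _ ≤ Real.exp (2 / 5 * L) := hL1 L hLL1
      _ = (x : ℝ) ^ (2 / 5 : ℝ) := by
          rw [Real.rpow_def_of_pos hx0, ← hL]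
          congr 1
          ring
  have hlog2 : ((Nat.log 2 z : ℕ) : ℝ) + 2 ≤ 2 * L ^ 2 := by
    have h1 : Nat.log 2 z ≤ z := Nat.log_le_self 2 z
    have h2 : ((Nat.log 2 z : ℕ) : ℝ) ≤ z := by exact_mod_cast h1
    nlinarith
  have herr : ((Nat.log 2 z : ℕ) : ℝ) + 2 ≤ 2 * L ^ 2 := hlog2
  have hE : (((Nat.log 2 z : ℕ) : ℝ) + 2) * ∑ d ∈ Icc 1 (z ^ B), Es x d ≤ 2 * C * (x / L ^ 3) := by
    calc _ ≤ (2 * L ^ 2) * (C * (x / L ^ 5)) :=
          mul_le_mul hlog2 hD (sum_nonneg fun _ _ => Es_nonneg _ _) (by positivity)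
      _ = 2 * C * (x / L ^ 3) := by field_simp
  -- the main term
  set s := L ^ (1 / 4 : ℝ) with hs
  have hLpos : 0 < L := by linarith
  have hs1 : 1 ≤ s := Real.one_le_rpow (by linarith) (by norm_num)
  have hs4 : s ^ 4 = L := by
    rw [hs, ← Real.rpow_natCast, ← Real.rpow_mul hLpos.le]
    norm_num
  have hs10 : L ^ (5 / 2 : ℝ) = s ^ 10 := by
    rw [hs, ← Real.rpow_natCast, ← Real.rpow_mul hLpos.le]
    norm_num
  have hlogz : Real.log z ≤ 8 * s := by
    have h1 : Real.log z ≤ 2 * Real.log L := by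
      have := Real.log_le_log (by positivity : (0 : ℝ) < z) hz1
      rwa [Real.log_pow, Nat.cast_ofNat] at this
    have h2 : Real.log L = 4 * Real.log s := by
      rw [← hs4, Real.log_pow]
      norm_num
    have h3 : Real.log s ≤ s - 1 := Real.log_le_sub_one_of_pos (by linarith)
    linarith
  have hlogz0 : 0 < Real.log z := Real.log_pos (by exact_mod_cast (by omega : 1 < z))
  have hV : c / (8 * s) ≤ VP (OP z) :=
    (div_le_div_of_nonneg_left hc.le hlogz0 hlogz).trans (hVP z hz2)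
  have hP : (x : ℝ) / (2 * L) ≤ piN x := hpi x hxX'
  have hM : c * (x / (16 * s ^ 5)) ≤ piN x * VP (OP z) := by
    calc c * (x / (16 * s ^ 5)) = (x : ℝ) / (2 * L) * (c / (8 * s)) := by
          rw [← hs4]
          field_simp
          norm_num
      _ ≤ piN x * VP (OP z) := mul_le_mul hP hV (by positivity) (by positivity)
  -- the square root
  have hsq : Real.sqrt x ≤ x / L ^ 3 := by
    rw [le_div_iff₀ (by positivity)]
    have h1 : L ^ 3 ≤ Real.sqrt x := by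
      have h2 : Real.sqrt x = Real.exp (1 / 2 * L) := by
        rw [hxexp, Real.sqrt_eq_rpow, ← Real.exp_mul]
        congr 1
        ring
      rw [h2]
      exact hL2 L hLL2
    calc Real.sqrt x * L ^ 3 ≤ Real.sqrt x * Real.sqrt x :=
          mul_le_mul_of_nonneg_left h1 (Real.sqrt_nonneg _)
      _ = x := Real.mul_self_sqrt hx0.le
  have hTT := TT_le x
  rw [← hL, ← hz] at hTT
  have hlow := (abs_le.1 hT).1
  -- conclusion
  rw [hs10]
  have key : (x : ℝ) / s ^ 10 + (2 * C + 1) * (x / L ^ 3) ≤ c / 2 * (x / (16 * s ^ 5)) := by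
    have hL3' : L ^ 3 = s ^ 12 := by rw [← hs4]; ring
    have hsc : 64 * (C + 1) ≤ c * s ^ 4 := by
      rw [hs4]
      rw [div_le_iff₀ hc] at hLc
      linarith
    rw [hL3']
    have e1 : c / 2 * ((x : ℝ) / (16 * s ^ 5)) = x / s ^ 12 * (c * s ^ 7 / 32) := by
      field_simp
      norm_num
    have e2 : (x : ℝ) / s ^ 10 + (2 * C + 1) * (x / s ^ 12) = x / s ^ 12 * (s ^ 2 + (2 * C + 1)) := by
      field_simp
    rw [e1, e2]
    apply mul_le_mul_of_nonneg_left _ (by positivity)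
    have h5 : s ^ 2 + (2 * C + 1) ≤ (2 * C + 2) * s ^ 2 := by
      have : 1 ≤ s ^ 2 := one_le_pow₀ hs1
      nlinarith
    have h6 : (2 * C + 2) * s ^ 2 ≤ (2 * C + 2) * s ^ 3 := by
      apply mul_le_mul_of_nonneg_left _ (by positivity)
      exact pow_le_pow_right₀ hs1 (by norm_num)
    have h7 : (2 * C + 2) * s ^ 3 ≤ (c * s ^ 4 / 32) * s ^ 3 := by
      apply mul_le_mul_of_nonneg_right _ (by positivity)
      linarith
    calc _ ≤ _ := h5
      _ ≤ _ := h6
      _ ≤ _ := h7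
      _ = _ := by ring
  linarith

end Pool.Agent.Q238.ART
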