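import Pool.Agent.Q145.ART.Stm

/-!
Project ART, job TWO: the number of the elements of given type modulo two primes.
-/

set_option autoImplicit false

namespace Pool.Agent.Q238.ART

open Finset Filter
open Pool.Agent.H730R2.AA (NT)
open Pool.Agent.Q145.ART

/-- The values of a character of larger level. -/
theorem cl_nat {m d : ℕ} (hd : d ∣ m) (χ : DirichletCharacter ℂ d) (a : ℕ) (ha : a.Coprime m) :
    DirichletCharacter.changeLevel hd χ (a : ZMod m) = χ (a : ZMod d) := by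
  have h := DirichletCharacter.changeLevel_eq_cast_of_dvd' χ hd (a := (a : ℤ))
    (by exact_mod_cast Nat.isCoprime_iff_coprime.mpr ha)
  simpa using h

theorem val_zero {m : ℕ} (χ : DirichletCharacter ℂ m) (a : ℕ) (ha : ¬ a.Coprime m) :
    χ (a : ZMod m) = 0 := by
  apply χ.map_nonunit
  rwa [ZMod.isUnit_iff_coprime]

/-- The product of two nonprincipal characters modulo two primes. -/
theorem prod_char {p q : ℕ} (hp : p.Prime) (hq : q.Prime) (hpq : p ≠ q)
    (χ : DirichletCharacter ℂ p) (ψ : DirichletCharacter ℂ q) (hχ : χ ≠ 1) (hψ : ψ ≠ 1) :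
    ∃ Θ : DirichletCharacter ℂ (p * q), Θ.IsPrimitive ∧
      ∀ a : ℕ, Θ (a : ZMod (p * q)) = χ (a : ZMod p) * ψ (a : ZMod q) := by
  have : NeZero p := ⟨hp.ne_zero⟩
  have : NeZero q := ⟨hq.ne_zero⟩
  have : NeZero (p * q) := ⟨mul_ne_zero hp.ne_zero hq.ne_zero⟩
  have hcop : p.Coprime q := (Nat.coprime_primes hp hq).mpr hpq
  set Θ : DirichletCharacter ℂ (p * q) :=
    DirichletCharacter.changeLevel (Nat.dvd_mul_right p q) χ *
      DirichletCharacter.changeLevel (Nat.dvd_mul_left q p) ψ with hΘ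
  have hval : ∀ a : ℕ, Θ (a : ZMod (p * q)) = χ (a : ZMod p) * ψ (a : ZMod q) := by
    intro a
    by_cases ha : a.Coprime (p * q)
    · rw [hΘ, MulChar.mul_apply, cl_nat _ _ _ ha, cl_nat _ _ _ ha]
    · rw [val_zero Θ a ha]
      rw [Nat.coprime_mul_iff_right, not_and_or] at ha
      rcases ha with ha | ha
      · rw [val_zero χ a ha, zero_mul]
      · rw [val_zero ψ a ha, mul_zero]
  refine ⟨Θ, ?_, hval⟩
  rw [DirichletCharacter.isPrimitive_def]
  by_contra hne
  obtain ⟨hdvd, Θ₀, hΘ₀⟩ := DirichletCharacter.factorsThrough_conductor Θ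
  set d := Θ.conductor with hd
  -- `Θ a = 1` if `a ≡ 1` modulo `d`
  have hone : ∀ a : ℕ, a.Coprime (p * q) → (a : ZMod d) = 1 → Θ (a : ZMod (p * q)) = 1 := by
    intro a ha had
    rw [hΘ₀, cl_nat _ _ _ ha, had, map_one]
  have hcase : d ∣ p ∨ d ∣ q := by
    obtain ⟨d1, d2, h1, h2, h3⟩ := exists_dvd_and_dvd_of_dvd_mul hdvd
    rcases (Nat.dvd_prime hp).1 h1 with e1 | e1
    · right
      rw [h3, e1, one_mul]
      exact h2
    · rcases (Nat.dvd_prime hq).1 h2 with e2 | e2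
      · left
        rw [h3, e2, mul_one]
        exact h1
      · exfalso
        apply hne
        rw [h3, e1, e2]
  rcases hcase with hc | hc
  · -- `ψ = 1`
    apply hψ
    ext g
    rw [MulChar.one_apply_coe]
    obtain ⟨a, ha1, ha2⟩ := Nat.chineseRemainder hcop 1 (g : ZMod q).val
    have hap : (a : ZMod p) = 1 := by
      have := (ZMod.natCast_eq_natCast_iff a 1 p).mpr ha1
      simpa using this
    have haq : (a : ZMod q) = (g : ZMod q) := by
      have := (ZMod.natCast_eq_natCast_iff a (g : ZMod q).val q).mpr ha2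
      rw [this, ZMod.natCast_zmod_val]
    have hcp : a.Coprime p := by
      rw [← ZMod.isUnit_iff_coprime, hap]
      exact isUnit_one
    have hcq : a.Coprime q := by
      rw [← ZMod.isUnit_iff_coprime, haq]
      exact g.isUnit
    have had : (a : ZMod d) = 1 := by
      have := (ZMod.natCast_eq_natCast_iff a 1 d).mpr (ha1.of_dvd hc)
      simpa using this
    have h1 := hone a (Nat.Coprime.mul_right hcp hcq) had
    rw [hval, hap, map_one, one_mul, haq] at h1
    exact h1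
  · -- `χ = 1`
    apply hχ
    ext g
    rw [MulChar.one_apply_coe]
    obtain ⟨a, ha1, ha2⟩ := Nat.chineseRemainder hcop (g : ZMod p).val 1
    have haq : (a : ZMod q) = 1 := by
      have := (ZMod.natCast_eq_natCast_iff a 1 q).mpr ha2
      simpa using this
    have hap : (a : ZMod p) = (g : ZMod p) := by
      have := (ZMod.natCast_eq_natCast_iff a (g : ZMod p).val p).mpr ha1
      rw [this, ZMod.natCast_zmod_val]
    have hcq : a.Coprime q := by
      rw [← ZMod.isUnit_iff_coprime, haq]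
      exact isUnit_one
    have hcp : a.Coprime p := by
      rw [← ZMod.isUnit_iff_coprime, hap]
      exact g.isUnit
    have had : (a : ZMod d) = 1 := by
      have := (ZMod.natCast_eq_natCast_iff a 1 d).mpr (ha2.of_dvd hc)
      simpa using this
    have h1 := hone a (Nat.Coprime.mul_right hcp hcq) had
    rw [hval, haq, map_one, mul_one, hap] at h1
    exact h1

theorem rr_bd {p : ℕ} (hp : 2 < p) (t : ℤ) : 0 ≤ rr p t ∧ rr p t ≤ 1 := by
  unfold rr
  split_ifs
  · constructor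
    · positivity
    · have h : (0 : ℝ) < ((p - 1 : ℕ) : ℝ) := by exact_mod_cast (by omega : 0 < p - 1)
      rw [div_le_one h]
      exact_mod_cast Nat.totient_le (p - 1)
  · norm_num

theorem one_le_tt {p : ℕ} (hp : 2 < p) : 1 ≤ tt p := by
  unfold tt
  have : 0 < (p - 1).divisors.card := Finset.card_pos.mpr ⟨1, Nat.one_mem_divisors.mpr (by omega)⟩
  exact_mod_cast this

/-- The multiples of `q` in `E`. -/
theorem mult_le {N : ℕ} {E : Finset ℕ} (hE : E ⊆ Icc 1 N) (q : ℕ) :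
    ((E.filter fun a => q ∣ a).card : ℝ) ≤ (N : ℝ) / q := by
  have h1 : (E.filter fun a => q ∣ a).card ≤ N / q := by
    calc (E.filter fun a => q ∣ a).card ≤ ((Ioc 0 N).filter fun a => q ∣ a).card := by
          apply Finset.card_le_card
          intro a ha
          rw [Finset.mem_filter] at ha ⊢
          have := Finset.mem_Icc.mp (hE ha.1)
          exact ⟨Finset.mem_Ioc.mpr ⟨by omega, this.2⟩, ha.2⟩
      _ = N / q := Nat.Ioc_filter_dvd_card_eq_div N q
  calc ((E.filter fun a => q ∣ a).card : ℝ) ≤ ((N / q : ℕ) : ℝ) := by exact_mod_cast h1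
    _ ≤ (N : ℝ) / q := Nat.cast_div_le

theorem char_part {p : ℕ} {T B : ℝ} (β F : DirichletCharacter ℂ p → ℂ)
    (hβs : ∑ χ ∈ NT p, ‖β χ‖ ≤ T) (hB : 0 ≤ B) (hF : ∀ χ ∈ NT p, ‖F χ‖ ≤ B) :
    ‖∑ χ ∈ NT p, β χ * F χ‖ ≤ T * B := by
  calc ‖∑ χ ∈ NT p, β χ * F χ‖ ≤ ∑ χ ∈ NT p, ‖β χ * F χ‖ := norm_sum_le _ _
    _ ≤ ∑ χ ∈ NT p, ‖β χ‖ * B := by
        apply Finset.sum_le_sum
        intro χ hχ
        rw [norm_mul]
        exact mul_le_mul_of_nonneg_left (hF χ hχ) (norm_nonneg _)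
    _ = (∑ χ ∈ NT p, ‖β χ‖) * B := by rw [Finset.sum_mul]
    _ ≤ T * B := mul_le_mul_of_nonneg_right hβs hB

/-- The sum of a character over the elements which are not multiples of `q`. -/
theorem res_sum {N : ℕ} {E : Finset ℕ} (hE : E ⊆ Icc 1 N) {p : ℕ} (q : ℕ) {V : ℝ}
    (χ : DirichletCharacter ℂ p) (hχ : ‖∑ a ∈ E, χ (a : ZMod p)‖ ≤ V) :
    ‖∑ a ∈ E, (if q ∣ a then (0 : ℂ) else 1) * χ (a : ZMod p)‖ ≤ V + (N : ℝ) / q := by
  have e : ∑ a ∈ E, (if q ∣ a then (0 : ℂ) else 1) * χ (a : ZMod p) =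
      ∑ a ∈ E, χ (a : ZMod p) - ∑ a ∈ E.filter (fun a => q ∣ a), χ (a : ZMod p) := by
    rw [Finset.sum_filter, ← Finset.sum_sub_distrib]
    apply Finset.sum_congr rfl
    intro a _
    split_ifs <;> simp
  rw [e]
  have h1 : ‖∑ a ∈ E.filter (fun a => q ∣ a), χ (a : ZMod p)‖ ≤ (N : ℝ) / q := by
    calc _ ≤ ∑ a ∈ E.filter (fun a => q ∣ a), ‖χ (a : ZMod p)‖ := norm_sum_le _ _
      _ ≤ ∑ a ∈ E.filter (fun a => q ∣ a), (1 : ℝ) :=
          Finset.sum_le_sum fun a _ => χ.norm_le_one _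
      _ = ((E.filter fun a => q ∣ a).card : ℝ) := by simp
      _ ≤ (N : ℝ) / q := mult_le hE q
  refine (norm_sub_le _ _).trans ?_
  linarith

theorem NT_ne {p : ℕ} [NeZero p] {χ : DirichletCharacter ℂ p} (h : χ ∈ NT p) : χ ≠ 1 := by
  simp only [NT, Finset.mem_filter] at h
  exact h.2

theorem t_TWO : S_TWO := by
  intro hEXP N p q E t V hp hp2 hq hq2 hpq hE ht hV hCp hCq hCpq
  have : Fact p.Prime := ⟨hp⟩
  have : Fact q.Prime := ⟨hq⟩
  obtain ⟨β, hβ, hβs⟩ := hEXP p hp2 t ht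
  obtain ⟨γ, hγ, hγs⟩ := hEXP q hq2 t ht
  classical
  set ip : ℕ → ℂ := fun a => if p ∣ a then 0 else 1 with hip
  set iq : ℕ → ℂ := fun a => if q ∣ a then 0 else 1 with hiq
  set Sp : ℕ → ℂ := fun a => ∑ χ ∈ NT p, β χ * χ (a : ZMod p) with hSp
  set Sq : ℕ → ℂ := fun a => ∑ χ ∈ NT q, γ χ * χ (a : ZMod q) with hSq
  set A : ℂ := ((rr p t : ℝ) : ℂ) with hA
  set B : ℂ := ((rr q t : ℝ) : ℂ) with hB
  have hP : ∀ a : ℕ, (if Ty p t a then (1 : ℂ) else 0) = A * ip a + Sp a := by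
    intro a
    have e : A * ip a = if p ∣ a then 0 else ((rr p t : ℝ) : ℂ) := by
      simp only [hip, hA]
      split_ifs <;> simp
    rw [e]
    split_ifs with h1 h2 h2
    · have := (hβ a).1 h1; rw [if_pos h2] at this; exact this
    · have := (hβ a).1 h1; rw [if_neg h2] at this; exact this
    · have := (hβ a).2 h1; rw [if_pos h2] at this; exact this
    · have := (hβ a).2 h1; rw [if_neg h2] at this; exact this
  have hQ : ∀ a : ℕ, (if Ty q t a then (1 : ℂ) else 0) = B * iq a + Sq a := by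
    intro a
    have e : B * iq a = if q ∣ a then 0 else ((rr q t : ℝ) : ℂ) := by
      simp only [hiq, hB]
      split_ifs <;> simp
    rw [e]
    split_ifs with h1 h2 h2
    · have := (hγ a).1 h1; rw [if_pos h2] at this; exact this
    · have := (hγ a).1 h1; rw [if_neg h2] at this; exact this
    · have := (hγ a).2 h1; rw [if_pos h2] at this; exact this
    · have := (hγ a).2 h1; rw [if_neg h2] at this; exact this
  have hcount : ((nT2 E t p q : ℝ) : ℂ) = A * B * ∑ a ∈ E, ip a * iq a +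
      B * ∑ a ∈ E, iq a * Sp a + A * ∑ a ∈ E, ip a * Sq a + ∑ a ∈ E, Sp a * Sq a := by
    have e1 : ((nT2 E t p q : ℝ) : ℂ) = ∑ a ∈ E,
        (if Ty p t a then (1 : ℂ) else 0) * (if Ty q t a then (1 : ℂ) else 0) := by
      unfold nT2 num
      rw [Complex.ofReal_natCast, Finset.card_filter, Nat.cast_sum]
      apply Finset.sum_congr rfl
      intro a _
      by_cases h1 : Ty p t a <;> by_cases h2 : Ty q t a <;> simp [h1, h2]
    rw [e1, Finset.mul_sum, Finset.mul_sum, Finset.mul_sum, ← Finset.sum_add_distrib,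
      ← Finset.sum_add_distrib, ← Finset.sum_add_distrib]
    apply Finset.sum_congr rfl
    intro a _
    rw [hP, hQ]
    ring
  obtain ⟨rp0, rp1⟩ := rr_bd hp2 t
  obtain ⟨rq0, rq1⟩ := rr_bd hq2 t
  have tp := one_le_tt hp2
  have tq := one_le_tt hq2
  have nA : ‖A‖ ≤ 1 := by
    rw [hA, Complex.norm_real, Real.norm_of_nonneg rp0]; exact rp1
  have nB : ‖B‖ ≤ 1 := by
    rw [hB, Complex.norm_real, Real.norm_of_nonneg rq0]; exact rq1
  have hNp : 0 ≤ (N : ℝ) / p := by positivity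
  have hNq : 0 ≤ (N : ℝ) / q := by positivity
  -- first term
  have b1 : ‖A * B * ∑ a ∈ E, ip a * iq a - A * B * (E.card : ℂ)‖ ≤ (N : ℝ) / p + (N : ℝ) / q := by
    have e : A * B * ∑ a ∈ E, ip a * iq a - A * B * (E.card : ℂ) =
        -(A * B * ∑ a ∈ E, (1 - ip a * iq a)) := by
      rw [Finset.sum_sub_distrib]
      simp only [Finset.sum_const, nsmul_eq_mul, mul_one]
      ring
    rw [e, norm_neg, norm_mul, norm_mul]
    have h1 : ‖∑ a ∈ E, (1 - ip a * iq a)‖ ≤ (N : ℝ) / p + (N : ℝ) / q := by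
      calc ‖∑ a ∈ E, (1 - ip a * iq a)‖ ≤ ∑ a ∈ E, ‖1 - ip a * iq a‖ := norm_sum_le _ _
        _ ≤ ∑ a ∈ E, ((if p ∣ a then (1 : ℝ) else 0) + (if q ∣ a then (1 : ℝ) else 0)) := by
            apply Finset.sum_le_sum
            intro a _
            simp only [hip, hiq]
            split_ifs <;> simp
        _ = ((E.filter fun a => p ∣ a).card : ℝ) + ((E.filter fun a => q ∣ a).card : ℝ) := by
            rw [Finset.sum_add_distrib, Finset.card_filter, Finset.card_filter]
            push_cast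
            rfl
        _ ≤ _ := add_le_add (mult_le hE p) (mult_le hE q)
    calc ‖A‖ * ‖B‖ * ‖∑ a ∈ E, (1 - ip a * iq a)‖ ≤ 1 * 1 * ((N : ℝ) / p + (N : ℝ) / q) := by
          gcongr
      _ = _ := by ring
  -- second term
  have b2 : ‖B * ∑ a ∈ E, iq a * Sp a‖ ≤ tt p * (V + (N : ℝ) / q) := by
    have e : ∑ a ∈ E, iq a * Sp a = ∑ χ ∈ NT p, β χ * ∑ a ∈ E, iq a * χ (a : ZMod p) := by
      simp only [hSp, Finset.mul_sum]
      rw [Finset.sum_comm]
      apply Finset.sum_congr rfl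
      intro χ _
      apply Finset.sum_congr rfl
      intro a _
      ring
    rw [norm_mul, e]
    have h1 := char_part β (fun χ => ∑ a ∈ E, iq a * χ (a : ZMod p)) hβs
      (by positivity : 0 ≤ V + (N : ℝ) / q) (fun χ hχ => res_sum hE q χ
        (hCp χ (Pool.Agent.H730R2.AA.NT_prim p hp χ hχ)))
    calc ‖B‖ * _ ≤ 1 * (tt p * (V + (N : ℝ) / q)) := by gcongr
      _ = _ := one_mul _
  -- third term
  have b3 : ‖A * ∑ a ∈ E, ip a * Sq a‖ ≤ tt q * (V + (N : ℝ) / p) := by
    have e : ∑ a ∈ E, ip a * Sq a = ∑ χ ∈ NT q, γ χ * ∑ a ∈ E, ip a * χ (a : ZMod q) := by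
      simp only [hSq, Finset.mul_sum]
      rw [Finset.sum_comm]
      apply Finset.sum_congr rfl
      intro χ _
      apply Finset.sum_congr rfl
      intro a _
      ring
    rw [norm_mul, e]
    have h1 := char_part γ (fun χ => ∑ a ∈ E, ip a * χ (a : ZMod q)) hγs
      (by positivity : 0 ≤ V + (N : ℝ) / p) (fun χ hχ => res_sum hE p χ
        (hCq χ (Pool.Agent.H730R2.AA.NT_prim q hq χ hχ)))
    calc ‖A‖ * _ ≤ 1 * (tt q * (V + (N : ℝ) / p)) := by gcongr
      _ = _ := one_mul _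
  -- fourth term
  have b4 : ‖∑ a ∈ E, Sp a * Sq a‖ ≤ tt p * (tt q * V) := by
    have e : ∑ a ∈ E, Sp a * Sq a = ∑ χ ∈ NT p, β χ * ∑ ψ ∈ NT q, γ ψ *
        ∑ a ∈ E, χ (a : ZMod p) * ψ (a : ZMod q) := by
      calc ∑ a ∈ E, Sp a * Sq a = ∑ a ∈ E, ∑ χ ∈ NT p, ∑ ψ ∈ NT q,
            (β χ * χ (a : ZMod p)) * (γ ψ * ψ (a : ZMod q)) := by
            apply Finset.sum_congr rfl
            intro a _
            simp only [hSp, hSq]
            rw [Finset.sum_mul_sum]
        _ = ∑ χ ∈ NT p, ∑ a ∈ E, ∑ ψ ∈ NT q,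
            (β χ * χ (a : ZMod p)) * (γ ψ * ψ (a : ZMod q)) := Finset.sum_comm
        _ = ∑ χ ∈ NT p, β χ * ∑ ψ ∈ NT q, γ ψ *
            ∑ a ∈ E, χ (a : ZMod p) * ψ (a : ZMod q) := by
            apply Finset.sum_congr rfl
            intro χ _
            rw [Finset.sum_comm, Finset.mul_sum]
            apply Finset.sum_congr rfl
            intro ψ _
            rw [Finset.mul_sum, Finset.mul_sum]
            apply Finset.sum_congr rfl
            intro a _
            ring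
    rw [e]
    apply char_part β _ hβs (by positivity)
    intro χ hχ
    apply char_part γ _ hγs hV
    intro ψ hψ
    have hχ1 : χ ≠ 1 := NT_ne hχ
    have hψ1 : ψ ≠ 1 := NT_ne hψ
    obtain ⟨Θ, hΘ, hΘv⟩ := prod_char hp hq hpq χ ψ hχ1 hψ1
    have := hCpq Θ hΘ
    rwa [Finset.sum_congr rfl fun a _ => hΘv a] at this
  -- together
  have hfin : ‖((nT2 E t p q : ℝ) : ℂ) - A * B * (E.card : ℂ)‖ ≤
      ((N : ℝ) / p + (N : ℝ) / q) + tt p * (V + (N : ℝ) / q) + tt q * (V + (N : ℝ) / p) +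
        tt p * (tt q * V) := by
    have e : ((nT2 E t p q : ℝ) : ℂ) - A * B * (E.card : ℂ) =
        (A * B * ∑ a ∈ E, ip a * iq a - A * B * (E.card : ℂ)) + B * ∑ a ∈ E, iq a * Sp a +
        A * ∑ a ∈ E, ip a * Sq a + ∑ a ∈ E, Sp a * Sq a := by
      rw [hcount]; ring
    rw [e]
    refine (norm_add_le _ _).trans (add_le_add ?_ b4)
    refine (norm_add_le _ _).trans (add_le_add ?_ b3)
    exact (norm_add_le _ _).trans (add_le_add b1 b2)
  have e5 : ((nT2 E t p q : ℝ) : ℂ) - A * B * (E.card : ℂ) =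
      ((nT2 E t p q - rr p t * rr q t * (E.card : ℝ) : ℝ) : ℂ) := by
    rw [hA, hB]; push_cast; ring
  rw [e5, Complex.norm_real, Real.norm_eq_abs] at hfin
  refine hfin.trans ?_
  set X := (N : ℝ) / p
  set Y := (N : ℝ) / q
  have t1 : tt p ≤ tt p * tt q := le_mul_of_one_le_right (by linarith) tq
  have t2 : tt q ≤ tt p * tt q := le_mul_of_one_le_left (by linarith) tp
  have t3 : 1 ≤ tt p * tt q := tp.trans t1
  have c1 : X + Y ≤ tt p * tt q * (X + Y) := le_mul_of_one_le_left (by positivity) t3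
  have c2 : tt p * (V + Y) ≤ tt p * tt q * (V + Y) := mul_le_mul_of_nonneg_right t1 (by positivity)
  have c3 : tt q * (V + X) ≤ tt p * tt q * (V + X) := mul_le_mul_of_nonneg_right t2 (by positivity)
  have c4 : 0 ≤ tt p * tt q * (V + 2 * X + 2 * Y) := by positivity
  have e6 : 4 * tt p * tt q * (V + X + Y) = tt p * tt q * (X + Y) + tt p * tt q * (V + Y) +
      tt p * tt q * (V + X) + tt p * (tt q * V) + tt p * tt q * (V + 2 * X + 2 * Y) := by ring
  rw [e6]
  linarith

end Pool.Agent.Q238.ART
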